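import Mathlib

set_option autoImplicit false

namespace Pool.Agent.Results.MP_a61939_al.Phase

open Filter Topology

/-- The group Z x Z/2. -/
abbrev G : Type := ℤ × ZMod 2

/-- x is a sum of exactly r elements of A or -A. -/
def IsSum (A : Set G) (r : ℕ) (x : G) : Prop :=
  ∃ l : List G, l.length = r ∧ (∀ y ∈ l, y ∈ A ∨ -y ∈ A) ∧ l.sum = x

/-- A generates G. -/
def Gen (A : Set G) : Prop := ∀ x, ∃ r, IsSum A r x

/-- word length. -/
noncomputable def len (A : Set G) (x : G) : ℕ := sInf {r | IsSum A r x}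

/-- the sphere of radius r. -/
def sph (A : Set G) (r : ℕ) : Set G := {x | len A x = r}

/-- A is an infinite generating set with a phase transition at radius r and transition set S. -/
def Trans (A : Set G) (r : ℕ) (S : Set G) : Prop :=
  A.Infinite ∧ Gen A ∧ (∃ k, sph A k = ∅) ∧ IsGreatest {k | (sph A k).Nonempty} r ∧ S = sph A r

/-- S is the transition set, at radius r, of some infinite generating set. -/
def Realised (S : Set G) (r : ℕ) : Prop := ∃ A, Trans A r S

/-- S has density zero. -/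
def DensityZero (S : Set G) : Prop :=
  Tendsto (fun N : ℕ => ((S ∩ {x | |x.1| ≤ N}).ncard : ℝ) / N) atTop (𝓝 0)

def Bk (A : Set G) (k : ℕ) (x : G) : Prop :=
  ∃ l : List G, l.length ≤ k ∧ (∀ y ∈ l, y ∈ A ∨ -y ∈ A) ∧ l.sum = x

lemma Bk_zero (A : Set G) (k : ℕ) : Bk A k 0 := ⟨[], by simp, by simp, by simp⟩

lemma Bk_zero_iff (A : Set G) (x : G) : Bk A 0 x ↔ x = 0 := by
  constructor
  · rintro ⟨l, h1, -, h3⟩
    have : l = [] := List.eq_nil_of_length_eq_zero (by omega)
    subst this; simpa using h3.symm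
  · rintro rfl; exact Bk_zero _ _

lemma Bk_mono {A B : Set G} {k m : ℕ} {x : G} (hAB : A ⊆ B) (h : k ≤ m) (hx : Bk A k x) :
    Bk B m x := by
  obtain ⟨l, h1, h2, h3⟩ := hx
  exact ⟨l, h1.trans h, fun y hy => (h2 y hy).imp (fun h => hAB h) (fun h => hAB h), h3⟩

lemma Bk_add {A : Set G} {k m : ℕ} {x y : G} (hx : Bk A k x) (hy : Bk A m y) :
    Bk A (k + m) (x + y) := by
  obtain ⟨l, h1, h2, h3⟩ := hx
  obtain ⟨l', h1', h2', h3'⟩ := hy
  refine ⟨l ++ l', by simp; omega, ?_, by simp [h3, h3']⟩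
  intro z hz
  rcases List.mem_append.1 hz with h | h
  exacts [h2 z h, h2' z h]

lemma Bk_one {A : Set G} {x : G} (h : x ∈ A ∨ -x ∈ A) : Bk A 1 x :=
  ⟨[x], by simp, by simpa using h, by simp⟩

lemma Bk_one_iff {A : Set G} {x : G} : Bk A 1 x ↔ x = 0 ∨ x ∈ A ∨ -x ∈ A := by
  constructor
  · rintro ⟨l, h1, h2, h3⟩
    match l, h1, h2, h3 with
    | [], _, _, h3 => left; simpa using h3.symm
    | [y], _, h2, h3 =>
      right
      have : y = x := by simpa using h3
      subst this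
      exact h2 y (by simp)
    | _ :: _ :: _, h1, _, _ => simp at h1
  · rintro (rfl | h)
    exacts [Bk_zero _ _, Bk_one h]

lemma Bk_neg {A : Set G} {k : ℕ} {x : G} (hx : Bk A k x) : Bk A k (-x) := by
  obtain ⟨l, h1, h2, h3⟩ := hx
  refine ⟨l.map (fun y => -y), by simpa using h1, ?_, ?_⟩
  · intro z hz
    obtain ⟨y, hy, rfl⟩ := List.mem_map.1 hz
    rcases h2 y hy with h | h
    · right; simpa using h
    · left; exact h
  · rw [← h3]
    clear h1 h2 h3
    induction l with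
    | nil => simp
    | cons a l ih => simp only [List.map_cons, List.sum_cons, ih]; abel

lemma Bk_split {A : Set G} {k m : ℕ} {x : G} (hx : Bk A (k + m) x) :
    ∃ y z, Bk A k y ∧ Bk A m z ∧ y + z = x := by
  obtain ⟨l, h1, h2, h3⟩ := hx
  refine ⟨(l.take k).sum, (l.drop k).sum, ⟨_, by simp, fun y hy => h2 y (List.mem_of_mem_take hy), rfl⟩,
    ⟨_, by simp; omega, fun y hy => h2 y (List.mem_of_mem_drop hy), rfl⟩, ?_⟩
  rw [List.sum_take_add_sum_drop, h3]

lemma Bk_bound {A : Set G} (hA : A.Finite) (k : ℕ) : ∃ C : ℕ, ∀ x, Bk A k x → |x.1| ≤ C := by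
  obtain ⟨M, hM⟩ := (hA.image (fun x : G => x.1.natAbs)).bddAbove
  have hM' : ∀ y : G, (y ∈ A ∨ -y ∈ A) → |y.1| ≤ M := by
    rintro y (h | h)
    · have := hM ⟨y, h, rfl⟩
      simp only at this
      rw [Int.abs_eq_natAbs]; exact_mod_cast this
    · have := hM ⟨-y, h, rfl⟩
      simp only [Prod.fst_neg, Int.natAbs_neg] at this
      rw [Int.abs_eq_natAbs]; exact_mod_cast this
  have key : ∀ l : List G, (∀ y ∈ l, y ∈ A ∨ -y ∈ A) → |l.sum.1| ≤ l.length * M := by
    intro l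
    induction l with
    | nil => simp
    | cons a l ih =>
      intro h
      have h1 := hM' a (h a (by simp))
      have h2 := ih (fun y hy => h y (by simp [hy]))
      simp only [List.sum_cons, Prod.fst_add, List.length_cons]
      have := abs_add_le a.1 l.sum.1
      push_cast
      linarith
  refine ⟨k * M, ?_⟩
  rintro x ⟨l, h1, h2, rfl⟩
  refine (key l h2).trans ?_
  push_cast
  have : (l.length : ℤ) ≤ k := by exact_mod_cast h1
  exact mul_le_mul_of_nonneg_right this (by positivity)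

lemma inf_of_cover {A : Set G} {k : ℕ} (h : ∀ x, Bk A k x) : A.Infinite := by
  intro hA
  obtain ⟨C, hC⟩ := Bk_bound hA k
  have := hC ((C + 1 : ℤ), 0) (h _)
  simp only at this
  have h2 := le_abs_self ((C : ℤ) + 1)
  linarith

lemma len_le_iff {A : Set G} (hA : Gen A) (x : G) (k : ℕ) : len A x ≤ k ↔ Bk A k x := by
  constructor
  · intro h
    obtain ⟨l, h1, h2, h3⟩ := Nat.sInf_mem (hA x)
    exact ⟨l, by rw [h1]; exact h, h2, h3⟩
  · rintro ⟨l, h1, h2, h3⟩
    exact (Nat.sInf_le (show l.length ∈ {r | IsSum A r x} from ⟨l, rfl, h2, h3⟩)).trans h1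

lemma crit (A : Set G) (r : ℕ) (S : Set G) : Trans A r S ↔
    ∃ h, r = h + 1 ∧ (∀ x, Bk A (h + 1) x) ∧ S.Nonempty ∧ ∀ x, x ∈ S ↔ ¬ Bk A h x := by
  constructor
  · rintro ⟨-, hG, -, ⟨hne, hub⟩, rfl⟩
    have hle : ∀ x, len A x ≤ r := fun x => hub ⟨x, rfl⟩
    obtain rfl | ⟨h, rfl⟩ : r = 0 ∨ ∃ h, r = h + 1 := by
      rcases r with _ | h
      exacts [Or.inl rfl, Or.inr ⟨h, rfl⟩]
    · have := (Bk_zero_iff A ((1 : ℤ), 0)).1 ((len_le_iff hG _ _).1 (hle _))
      simp at this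
    · refine ⟨h, rfl, fun x => (len_le_iff hG _ _).1 (hle x), hne, fun x => ?_⟩
      rw [← len_le_iff hG]
      have := hle x
      simp only [sph, Set.mem_ofPred_eq]
      omega
  · rintro ⟨h, rfl, hc, hne, hS⟩
    have hG : Gen A := fun x => by
      obtain ⟨l, -, h2, h3⟩ := hc x
      exact ⟨_, l, rfl, h2, h3⟩
    have hle : ∀ x, len A x ≤ h + 1 := fun x => (len_le_iff hG _ _).2 (hc x)
    have hS' : S = sph A (h + 1) := by
      ext x
      rw [hS, ← len_le_iff hG]
      have := hle x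
      simp only [sph, Set.mem_ofPred_eq]
      omega
    refine ⟨inf_of_cover hc, hG, ⟨h + 2, ?_⟩, ⟨by rw [Set.mem_ofPred_eq, ← hS']; exact hne, ?_⟩, hS'⟩
    · ext x
      have := hle x
      simp only [sph, Set.mem_ofPred_eq, Set.mem_empty_iff_false, iff_false]
      omega
    · rintro k ⟨x, hx⟩
      rw [← (hx : len A x = k)]
      exact hle x

def Thin (S : Set G) : Prop :=
  ∀ C D : ℕ, ∃ a : G, ∀ d : ℤ, d ≠ 0 → |d| ≤ D → ∀ e : G, |e.1| ≤ C → e + d • a ∉ S

lemma generic {S : Set G} (hS : Thin S) (C D n : ℕ) : ∃ a : Fin n → G, ∀ d : Fin n → ℤ,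
    d ≠ 0 → (∀ i, |d i| ≤ D) → ∀ e : G, |e.1| ≤ C → e + ∑ i, d i • a i ∉ S := by
  induction n with
  | zero => exact ⟨fun _ => 0, fun d hd => absurd (Subsingleton.elim _ _) hd⟩
  | succ n ih =>
    obtain ⟨a, ha⟩ := ih
    obtain ⟨b, hb⟩ := hS (C + ∑ i, D * (a i).1.natAbs) D
    refine ⟨Fin.cons b a, fun d hd hD e he => ?_⟩
    rw [Fin.sum_univ_succ]
    simp only [Fin.cons_zero, Fin.cons_succ]
    by_cases h0 : d 0 = 0
    · rw [h0, zero_smul, zero_add]
      refine ha (fun i => d i.succ) ?_ (fun i => hD _) e he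
      intro h
      apply hd
      funext i
      refine Fin.cases h0 (fun j => congrFun h j) i
    · have := hb (d 0) h0 (hD 0) (e + ∑ i : Fin n, d i.succ • a i) ?_
      · convert this using 1; abel
      · simp only [Prod.fst_add, Prod.fst_sum, Prod.smul_fst, smul_eq_mul]
        refine (abs_add_le _ _).trans ?_
        push_cast
        refine add_le_add he ((Finset.abs_sum_le_sum_abs _ _).trans (Finset.sum_le_sum fun i _ => ?_))
        rw [abs_mul]
        exact mul_le_mul_of_nonneg_right (hD _) (abs_nonneg _)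

lemma decomp {ι : Type} [Fintype ι] [DecidableEq ι] (F : Set G) (a : ι → G) {k : ℕ} {x : G}
    (hx : Bk (F ∪ Set.range a) k x) : ∃ (c : ι → ℤ) (j : ℕ) (f : G), Bk F j f ∧
      (j : ℤ) + ∑ i, |c i| ≤ k ∧ x = f + ∑ i, c i • a i := by
  obtain ⟨l, h1, h2, rfl⟩ := hx
  suffices H : ∃ (c : ι → ℤ) (j : ℕ) (f : G), Bk F j f ∧
      (j : ℤ) + ∑ i, |c i| ≤ l.length ∧ l.sum = f + ∑ i, c i • a i by
    obtain ⟨c, j, f, p1, p2, p3⟩ := H
    exact ⟨c, j, f, p1, p2.trans (by exact_mod_cast h1), p3⟩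
  clear h1
  induction l with
  | nil => exact ⟨0, 0, 0, Bk_zero _ _, by simp, by simp⟩
  | cons y l ih =>
    obtain ⟨c, j, f, p1, p2, p3⟩ := ih (fun z hz => h2 z (by simp [hz]))
    have key : ∀ (i0 : ι) (s : ℤ), |s| = 1 → y = s • a i0 → ∃ (c : ι → ℤ) (j : ℕ) (f : G), Bk F j f ∧
        (j : ℤ) + ∑ i, |c i| ≤ (y :: l).length ∧ (y :: l).sum = f + ∑ i, c i • a i := by
      intro i0 s hs hy
      refine ⟨c + Pi.single i0 s, j, f, p1, ?_, ?_⟩
      · have : ∑ i, |(c + Pi.single i0 s : ι → ℤ) i| ≤ ∑ i, (|c i| + |(Pi.single i0 s : ι → ℤ) i|) :=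
          Finset.sum_le_sum fun i _ => abs_add_le _ _
        rw [Finset.sum_add_distrib] at this
        have h3 : ∑ i, |(Pi.single i0 s : ι → ℤ) i| = 1 := by
          rw [Finset.sum_eq_single i0]
          · simpa using hs
          · intro b _ hb; simp [hb]
          · simp
        simp only [List.length_cons]
        push_cast
        linarith
      · simp only [List.sum_cons, p3, Pi.add_apply, add_smul, Finset.sum_add_distrib]
        have h3 : ∑ i, (Pi.single i0 s : ι → ℤ) i • a i = s • a i0 := by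
          rw [Finset.sum_eq_single i0]
          · simp
          · intro b _ hb; simp [hb]
          · simp
        rw [h3, hy]; abel
    have key2 : (y ∈ F ∨ -y ∈ F) → ∃ (c : ι → ℤ) (j : ℕ) (f : G), Bk F j f ∧
        (j : ℤ) + ∑ i, |c i| ≤ (y :: l).length ∧ (y :: l).sum = f + ∑ i, c i • a i := by
      intro hy
      refine ⟨c, 1 + j, y + f, Bk_add (Bk_one hy) p1, ?_, ?_⟩
      · simp only [List.length_cons]; push_cast; linarith
      · simp only [List.sum_cons, p3]; abel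
    rcases h2 y (by simp) with (h | ⟨i, hi⟩) | (h | ⟨i, hi⟩)
    · exact key2 (Or.inl h)
    · exact key i 1 (by simp) (by simp [hi])
    · exact key2 (Or.inr h)
    · exact key i (-1) (by simp) (by simp [hi])

lemma step1 {S : Set G} (hS : Thin S) (h : ℕ) {F : Set G} (hF : F.Finite)
    (hg : ∀ x, Bk F h x → x ∉ S) (g : G) : ∃ F' : Set G, F ⊆ F' ∧ F'.Finite ∧
      (∀ x, Bk F' h x → x ∉ S) ∧ ∃ b ∈ F', g - b ∉ S := by
  obtain ⟨C, hC⟩ := Bk_bound hF h
  obtain ⟨b, hb⟩ := hS (C + g.1.natAbs) (h + 1)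
  refine ⟨F ∪ Set.range (fun _ : Unit => b), Set.subset_union_left, hF.union (Set.finite_range _), ?_,
    b, Or.inr ⟨(), rfl⟩, ?_⟩
  · intro x hx
    obtain ⟨c, j, f, p1, p2, rfl⟩ := decomp F _ hx
    simp only [Finset.univ_unique, Finset.sum_singleton] at p2 ⊢
    have hj : j ≤ h := by
      have := abs_nonneg (c default)
      have : (j : ℤ) ≤ h := by linarith
      exact_mod_cast this
    have p1' := Bk_mono subset_rfl hj p1
    by_cases h0 : c default = 0
    · rw [h0]; simpa using hg f p1'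
    · refine hb _ h0 ?_ f ?_
      · push_cast; have : (0 : ℤ) ≤ j := by positivity
        linarith
      · refine (hC f p1').trans ?_
        push_cast; have := abs_nonneg g.1; linarith
  · have := hb (-1) (by simp) (by simp) g (by push_cast; have : (0 : ℤ) ≤ C := by positivity
                                              linarith)
    simpa [sub_eq_add_neg] using this

lemma step2 {S : Set G} (hS : Thin S) (hsym : ∀ x ∈ S, -x ∈ S) (n : ℕ) {F : Set G}
    (hF : F.Finite) (hg : ∀ x, Bk F (n + 1) x → x ∉ S) (g : G) (hgS : g ∉ S) :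
    ∃ F' : Set G, F ⊆ F' ∧ F'.Finite ∧ (∀ x, Bk F' (n + 1) x → x ∉ S) ∧ Bk F' (n + 1) g := by
  obtain ⟨C, hC⟩ := Bk_bound hF (n + 1)
  obtain ⟨a, ha⟩ := generic hS (C + (n + 1) * g.1.natAbs) (2 * (n + 1)) n
  set a' : Fin (n + 1) → G := Fin.cons (g - ∑ i, a i) a with ha'
  refine ⟨F ∪ Set.range a', Set.subset_union_left, hF.union (Set.finite_range _), ?_, ?_⟩
  · intro x hx
    obtain ⟨c, j, f, p1, p2, rfl⟩ := decomp F _ hx
    have hnn : 0 ≤ ∑ i, |c i| := Finset.sum_nonneg fun i _ => abs_nonneg _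
    have hj0 : (0 : ℤ) ≤ j := by positivity
    have hj : j ≤ n + 1 := by
      have : (j : ℤ) ≤ (n + 1 : ℕ) := by linarith
      exact_mod_cast this
    have hci : ∀ i, |c i| ≤ n + 1 := fun i => by
      have := Finset.single_le_sum (f := fun i => |c i|) (fun i _ => abs_nonneg _) (Finset.mem_univ i)
      push_cast at p2
      linarith
    have p1' := Bk_mono subset_rfl hj p1
    have e1 : f + ∑ i, c i • a' i = (f + c 0 • g) + ∑ i : Fin n, (c i.succ - c 0) • a i := by
      rw [Fin.sum_univ_succ]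
      simp only [ha', Fin.cons_zero, Fin.cons_succ, sub_smul, Finset.sum_sub_distrib, smul_sub,
        Finset.smul_sum]
      abel
    rw [e1]
    by_cases hd : (fun i : Fin n => c i.succ - c 0) = 0
    · have hd' : ∀ i : Fin n, c i.succ = c 0 := fun i => sub_eq_zero.1 (congrFun hd i)
      simp only [hd', sub_self, zero_smul, Finset.sum_const_zero, add_zero]
      have hs : ∑ i, |c i| = (n + 1) * |c 0| := by
        rw [Fin.sum_univ_succ]; simp [hd']; ring
      rw [hs] at p2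
      push_cast at p2
      by_cases h0 : c 0 = 0
      · rw [h0]; simpa using hg f p1'
      · have h1 : 1 ≤ |c 0| := Int.one_le_abs h0
        have h2 : |c 0| ≤ 1 := by
          by_contra hh
          have : (2 : ℤ) ≤ |c 0| := by omega
          nlinarith
        have h3 : |c 0| = 1 := le_antisymm h2 h1
        rw [h3] at p2
        have : j = 0 := by omega
        subst this
        rw [(Bk_zero_iff _ _).1 p1, zero_add]
        rcases abs_eq (zero_le_one) |>.1 h3 with h4 | h4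
        · rw [h4]; simpa using hgS
        · rw [h4]; intro hh; apply hgS; simpa using hsym _ hh
    · refine ha _ hd (fun i => ?_) _ ?_
      · have := abs_sub (c i.succ) (c 0)
        have h1 := hci i.succ
        have h2 := hci 0
        push_cast; linarith
      · simp only [Prod.fst_add, Prod.smul_fst, smul_eq_mul]
        refine (abs_add_le _ _).trans ?_
        push_cast
        refine add_le_add (hC f p1') ?_
        rw [abs_mul]
        exact mul_le_mul_of_nonneg_right (hci 0) (abs_nonneg _)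
  · refine ⟨List.ofFn a', by simp, ?_, ?_⟩
    · intro y hy
      obtain ⟨i, rfl⟩ := (List.mem_ofFn' _ _).1 hy
      exact Or.inl (Or.inr ⟨i, rfl⟩)
    · rw [List.sum_ofFn, Fin.sum_univ_succ]
      simp [ha']

lemma greedy {S : Set G} (hS : Thin S) (hsym : ∀ x ∈ S, -x ∈ S) (h0 : (0 : G) ∉ S)
    (hne : S.Nonempty) (n : ℕ) : Realised S (n + 2) := by
  let P : Set G → Prop := fun F => F.Finite ∧ ∀ x, Bk F (n + 1) x → x ∉ S
  have step : ∀ (F : {F // P F}) (g : G), ∃ F' : {F // P F}, F.1 ⊆ F'.1 ∧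
      (∃ b ∈ F'.1, g - b ∉ S) ∧ (g ∉ S → Bk F'.1 (n + 1) g) := by
    rintro ⟨F, hF, hg⟩ g
    obtain ⟨F1, q1, q2, q3, b, hb, q4⟩ := step1 hS (n + 1) hF hg g
    by_cases hgS : g ∈ S
    · exact ⟨⟨F1, q2, q3⟩, q1, ⟨b, hb, q4⟩, fun h => absurd hgS h⟩
    · obtain ⟨F2, r1, r2, r3, r4⟩ := step2 hS hsym n q2 q3 g hgS
      exact ⟨⟨F2, r2, r3⟩, q1.trans r1, ⟨b, r1 hb, q4⟩, fun _ => r4⟩
  choose nx hn1 hn2 hn3 using step
  obtain ⟨e, he⟩ := exists_surjective_nat G
  have P0 : P ∅ := ⟨Set.finite_empty, by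
    rintro x ⟨l, -, h2, rfl⟩
    match l, h2 with
    | [], _ => simpa using h0
    | y :: _, h2 => simpa using h2 y (by simp)⟩
  let F : ℕ → {F // P F} := fun k => Nat.rec ⟨∅, P0⟩ (fun k X => nx X (e k)) k
  have hFs : ∀ k, F (k + 1) = nx (F k) (e k) := fun k => rfl
  have hmono : Monotone (fun k => (F k).1) :=
    monotone_nat_of_le_succ fun k => by rw [hFs]; exact hn1 _ _
  have hsub : ∀ k, (F k).1 ⊆ ⋃ k, (F k).1 := fun k => Set.subset_iUnion (fun k => (F k).1) k
  have hiff : ∀ x, x ∈ S ↔ ¬ Bk (⋃ k, (F k).1) (n + 1) x := by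
    intro x
    constructor
    · rintro hx ⟨l, h1, h2, h3⟩
      have : ∃ k, ∀ y ∈ l, y ∈ (F k).1 ∨ -y ∈ (F k).1 := by
        clear h1 h3
        induction l with
        | nil => exact ⟨0, by simp⟩
        | cons y l ih =>
          obtain ⟨k, hk⟩ := ih (fun z hz => h2 z (by simp [hz]))
          have : ∃ m, y ∈ (F m).1 ∨ -y ∈ (F m).1 := by
            rcases h2 y (by simp) with h | h
            · obtain ⟨m, hm⟩ := Set.mem_iUnion.1 h; exact ⟨m, Or.inl hm⟩
            · obtain ⟨m, hm⟩ := Set.mem_iUnion.1 h; exact ⟨m, Or.inr hm⟩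
          obtain ⟨m, hm⟩ := this
          refine ⟨max k m, fun z hz => ?_⟩
          rcases List.mem_cons.1 hz with rfl | hz
          · exact hm.imp (fun h => hmono (le_max_right _ _) h) (fun h => hmono (le_max_right _ _) h)
          · exact (hk z hz).imp (fun h => hmono (le_max_left _ _) h)
              (fun h => hmono (le_max_left _ _) h)
      obtain ⟨k, hk⟩ := this
      exact (F k).2.2 x ⟨l, h1, hk, h3⟩ hx
    · intro hx
      by_contra hxS
      obtain ⟨k, rfl⟩ := he x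
      exact hx (Bk_mono (hsub (k + 1)) le_rfl (by rw [hFs]; exact hn3 _ _ hxS))
  refine ⟨⋃ k, (F k).1, (crit _ _ _).2 ⟨n + 1, rfl, fun x => ?_, hne, hiff⟩⟩
  obtain ⟨k, rfl⟩ := he x
  obtain ⟨b, hb, hb2⟩ := hn2 (F k) (e k)
  have h1 : Bk (⋃ k, (F k).1) (n + 1) (e k - b) := by
    by_contra hh; exact hb2 ((hiff _).2 hh)
  have h2 : Bk (⋃ k, (F k).1) 1 b := Bk_one (Or.inl (hsub (k + 1) (by rw [hFs]; exact hb)))
  simpa using Bk_add h1 h2

lemma box_finite (N : ℤ) : {x : G | |x.1| ≤ N}.Finite := by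
  refine ((Set.finite_Icc (-N) N).prod (Set.finite_univ (α := ZMod 2))).subset ?_
  intro x hx
  exact ⟨abs_le.1 hx, trivial⟩

lemma thin_of_density {S : Set G} (hS : DensityZero S) : Thin S := by
  intro C D
  classical
  let E : Finset (ℤ × G) := (Finset.Icc (-(D : ℤ)) D).erase 0 ×ˢ (box_finite C).toFinset
  let K : ℕ := E.card
  have hε : (0 : ℝ) < 1 / ((K + 1) * (C + D + 1)) := by positivity
  obtain ⟨N0, hN0⟩ := eventually_atTop.1 (hS.eventually (gt_mem_nhds hε))
  set N : ℕ := N0 + 1 with hN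
  set M : ℕ := (C + D + 1) * N with hM
  have hM0 : N0 ≤ M := by rw [hM]; nlinarith
  have h1 := hN0 M hM0
  have hMpos : (0 : ℝ) < M := by rw [hM]; positivity
  set T := S ∩ {x | |x.1| ≤ (M : ℕ)} with hT
  have hTf : T.Finite := (box_finite _).subset Set.inter_subset_right
  have h2 : K * T.ncard < N := by
    rw [div_lt_div_iff₀ hMpos (by positivity)] at h1
    have h3 : (T.ncard : ℝ) * (K + 1) < N := by
      have : (0 : ℝ) < (C + D + 1) := by positivity
      rw [hM] at h1; push_cast at h1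
      nlinarith
    have h4 : (0 : ℝ) ≤ T.ncard := by positivity
    have : (K : ℝ) * T.ncard < N := by nlinarith
    exact_mod_cast this
  by_contra hcon
  push Not at hcon
  have hcov : Finset.range N ⊆ E.biUnion (fun p => (Finset.range N).filter
      (fun a : ℕ => p.2 + p.1 • (((a : ℤ), 0) : G) ∈ S)) := by
    intro a ha
    obtain ⟨d, hd0, hd, e, he, hmem⟩ := hcon ((a : ℤ), 0)
    refine Finset.mem_biUnion.2 ⟨(d, e), ?_, Finset.mem_filter.2 ⟨ha, hmem⟩⟩
    simp only [E, Finset.mem_product, Finset.mem_erase, Finset.mem_Icc, Set.Finite.mem_toFinset,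
      Set.mem_ofPred_eq]
    exact ⟨⟨hd0, abs_le.1 hd⟩, he⟩
  have hc := (Finset.card_le_card hcov).trans (Finset.card_biUnion_le_card_mul _ _ T.ncard ?_)
  · rw [Finset.card_range] at hc; exact absurd h2 (not_lt.2 hc)
  · rintro ⟨d, e⟩ hp
    simp only [E, Finset.mem_product, Finset.mem_erase, Finset.mem_Icc, Set.Finite.mem_toFinset,
      Set.mem_ofPred_eq] at hp
    rw [Set.ncard_eq_toFinset_card _ hTf]
    refine Finset.card_le_card_of_injOn (fun a : ℕ => e + d • (((a : ℤ), 0) : G)) ?_ ?_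
    · intro a ha
      simp only [Finset.coe_filter, Finset.mem_range, Set.mem_ofPred_eq] at ha
      simp only [Set.Finite.coe_toFinset, hT, Set.mem_inter_iff, Set.mem_ofPred_eq]
      refine ⟨ha.2, ?_⟩
      simp only [Prod.fst_add, Prod.smul_fst, smul_eq_mul]
      refine (abs_add_le _ _).trans ?_
      rw [abs_mul, hM]
      have ha1 : (a : ℤ) ≤ N := by exact_mod_cast ha.1.le
      have hd1 : |d| ≤ D := abs_le.2 hp.1.2
      have hN1 : (1 : ℤ) ≤ N := by rw [hN]; push_cast; omega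
      have : |d| * |(a : ℤ)| ≤ D * N := by
        rw [abs_of_nonneg (by positivity : (0 : ℤ) ≤ a)]
        exact mul_le_mul hd1 ha1 (by positivity) (by positivity)
      have hC0 : (0 : ℤ) ≤ C := by positivity
      push_cast
      nlinarith [hp.2]
    · intro a _ b _ hab
      have := congrArg Prod.fst hab
      simp only [Prod.fst_add, Prod.smul_fst, smul_eq_mul, add_right_inj] at this
      exact_mod_cast mul_left_cancel₀ hp.1.1 this

lemma density_of_finite {S : Set G} (hS : S.Finite) : DensityZero S := by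
  unfold DensityZero
  refine squeeze_zero (fun N => by positivity) (fun N => ?_)
    (tendsto_const_div_atTop_nhds_zero_nat (S.ncard : ℝ))
  refine div_le_div_of_nonneg_right ?_ (by positivity)
  exact_mod_cast Set.ncard_le_ncard Set.inter_subset_left hS

lemma thin_pow : Thin {x : G | ∃ k : ℕ, |x.1| = 2 ^ k} := by
  intro C D
  refine ⟨(3 * 2 ^ C, 0), ?_⟩
  rintro d hd - e he ⟨k, hk⟩
  simp only [Prod.fst_add, Prod.smul_fst, smul_eq_mul] at hk
  have hC : (C : ℤ) < 2 ^ C := by exact_mod_cast Nat.lt_two_pow_self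
  have h1 : 1 ≤ |d| := Int.one_le_abs hd
  rcases le_or_gt C k with h | h
  · have h2 : (2 : ℤ) ^ C ∣ e.1 + d * (3 * 2 ^ C) := by
      rw [← dvd_abs, hk]; exact pow_dvd_pow _ h
    have h3 : (2 : ℤ) ^ C ∣ e.1 := (dvd_add_left (Dvd.intro_left (d * 3) (by ring))).1 h2
    have h4 : e.1 = 0 := Int.eq_zero_of_abs_lt_dvd h3 (by linarith)
    rw [h4, zero_add] at hk
    have h5 : (3 : ℤ) ∣ 2 ^ k := by
      rw [← hk, dvd_abs]; exact Dvd.intro_left (d * 2 ^ C) (by ring)
    have := Int.prime_three.dvd_of_dvd_pow h5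
    norm_num at this
  · have h2 : (2 : ℤ) ^ k < 2 ^ C := pow_lt_pow_right₀ (by norm_num) h
    have h3 : |d * (3 * 2 ^ C)| ≤ |e.1 + d * (3 * 2 ^ C)| + |e.1| := by
      have := abs_sub (e.1 + d * (3 * 2 ^ C)) e.1
      simpa using this
    rw [abs_mul, abs_of_pos (by positivity : (0 : ℤ) < 3 * 2 ^ C)] at h3
    have h4 : (0 : ℤ) < 2 ^ C := by positivity
    nlinarith

lemma exists_sym (s : ℕ) : ∃ S : Finset G, S.card = s ∧ (0 : G) ∉ S ∧ ∀ x ∈ S, -x ∈ S := by
  have ev : ∀ t : ℕ, ∃ S : Finset G, S.card = 2 * t ∧ (∀ x ∈ S, x.1 ≠ 0) ∧ ∀ x ∈ S, -x ∈ S := by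
    intro t
    refine ⟨((Finset.Icc (-(t : ℤ)) t).erase 0).map ⟨fun k => (k, 0), fun a b h => by simpa using h⟩,
      ?_, ?_, ?_⟩
    · rw [Finset.card_map, Finset.card_erase_of_mem (by simp), Int.card_Icc]; omega
    · intro x hx
      obtain ⟨k, hk, rfl⟩ := Finset.mem_map.1 hx
      exact (Finset.mem_erase.1 hk).1
    · intro x hx
      obtain ⟨k, hk, rfl⟩ := Finset.mem_map.1 hx
      refine Finset.mem_map.2 ⟨-k, ?_, by simp⟩
      simp only [Finset.mem_erase, Finset.mem_Icc] at hk ⊢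
      omega
  obtain ⟨t, rfl | rfl⟩ := Nat.even_or_odd' s
  · obtain ⟨S, h1, h2, h3⟩ := ev t
    exact ⟨S, h1, fun h => h2 _ h rfl, h3⟩
  · obtain ⟨S, h1, h2, h3⟩ := ev t
    refine ⟨insert ((0 : ℤ), (1 : ZMod 2)) S, ?_, ?_, ?_⟩
    · rw [Finset.card_insert_of_notMem (fun h => h2 _ h rfl), h1]
    · rw [Finset.mem_insert]
      rintro (h | h)
      · exact absurd (congrArg Prod.snd h) (by decide)
      · exact h2 _ h rfl
    · intro x hx
      rcases Finset.mem_insert.1 hx with rfl | hx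
      · exact Finset.mem_insert.2 (Or.inl (by decide))
      · exact Finset.mem_insert.2 (Or.inr (h3 x hx))

lemma compl_zero_infinite : ({0}ᶜ : Set G).Infinite := (Set.finite_singleton _).infinite_compl

lemma real_one (S : Set G) : Realised S 1 ↔ S = {0}ᶜ := by
  constructor
  · rintro ⟨A, hA⟩
    obtain ⟨h, e, -, -, h3⟩ := (crit _ _ _).1 hA
    obtain rfl : h = 0 := by omega
    ext x; rw [h3, Bk_zero_iff]; simp
  · rintro rfl
    refine ⟨Set.univ, (crit _ _ _).2 ⟨0, rfl, fun x => Bk_one (Or.inl trivial),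
      compl_zero_infinite.nonempty, fun x => ?_⟩⟩
    rw [Bk_zero_iff]; simp

lemma real_pos {S : Set G} {r : ℕ} (h : Realised S r) : 1 ≤ r := by
  obtain ⟨A, hA⟩ := h
  obtain ⟨h, e, -⟩ := (crit _ _ _).1 hA
  omega

lemma real_props {S : Set G} {r : ℕ} (h : Realised S r) (hr : 2 ≤ r) :
    S.Nonempty ∧ (0 : G) ∉ S ∧ (∀ x ∈ S, -x ∈ S) ∧ ∀ g : G, ∃ a ∉ S, ∃ b ∉ S, a + b = g := by
  obtain ⟨A, hA⟩ := h
  obtain ⟨h, rfl, h1, h2, h3⟩ := (crit _ _ _).1 hA
  refine ⟨h2, fun hh => (h3 _).1 hh (Bk_zero _ _), fun x hx => (h3 _).2 fun hh => (h3 _).1 hx ?_,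
    fun g => ?_⟩
  · simpa using Bk_neg hh
  · obtain ⟨y, z, p1, p2, p3⟩ := Bk_split (h1 g)
    exact ⟨y, fun hh => (h3 _).1 hh p1, z,
      fun hh => (h3 _).1 hh (Bk_mono subset_rfl (by omega) p2), p3⟩

lemma real_two {S : Set G} (h : S.Nonempty ∧ (0 : G) ∉ S ∧ (∀ x ∈ S, -x ∈ S) ∧
    ∀ g : G, ∃ a ∉ S, ∃ b ∉ S, a + b = g) : Realised S 2 := by
  obtain ⟨h1, h2, h3, h4⟩ := h
  refine ⟨Sᶜ, (crit _ _ _).2 ⟨1, rfl, fun g => ?_, h1, fun x => ?_⟩⟩
  · obtain ⟨a, ha, b, hb, rfl⟩ := h4 g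
    exact Bk_add (Bk_one (Or.inl ha)) (Bk_one (Or.inl hb))
  · rw [Bk_one_iff]
    constructor
    · rintro hx (rfl | h | h)
      exacts [h2 hx, h hx, h (h3 x hx)]
    · intro hx
      by_contra hh
      exact hx (Or.inr (Or.inl hh))

lemma ne_of_props {S : Set G} (h : ∀ g : G, ∃ a ∉ S, ∃ b ∉ S, a + b = g) : S ≠ {0}ᶜ := by
  rintro rfl
  obtain ⟨a, ha, b, hb, hab⟩ := h ((1 : ℤ), 0)
  simp only [Set.mem_compl_iff, Set.mem_singleton_iff, not_not] at ha hb
  subst ha hb
  simpa using congrArg Prod.fst hab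

theorem result :
    (∀ (r : ℕ) (s : ℕ∞), (∃ S : Set G, Realised S r ∧ S.encard = s) ↔
      (2 ≤ r ∧ s ≠ 0) ∨ (r = 1 ∧ s = ⊤)) ∧
    (∀ S : Set G, (∃ r, Realised S r) ↔ S = {0}ᶜ ∨
      (S.Nonempty ∧ (0 : G) ∉ S ∧ (∀ x ∈ S, -x ∈ S) ∧ ∀ g : G, ∃ a ∉ S, ∃ b ∉ S, a + b = g)) ∧
    (∀ r, Realised {0}ᶜ r ↔ r = 1) ∧
    (∀ (S : Set G) (r : ℕ), S ≠ {0}ᶜ → Realised S r → 2 ≤ r ∧ Realised S 2) ∧
    (∀ S : Set G, S.Nonempty → (0 : G) ∉ S → (∀ x ∈ S, -x ∈ S) → (S.Finite ∨ DensityZero S) →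
      ∀ r, Realised S r ↔ 2 ≤ r) := by
  have p4 : ∀ (S : Set G) (r : ℕ), S ≠ {0}ᶜ → Realised S r → 2 ≤ r ∧ Realised S 2 := by
    intro S r hS h
    have h1 := real_pos h
    have h2 : r ≠ 1 := by rintro rfl; exact hS ((real_one S).1 h)
    exact ⟨by omega, real_two (real_props h (by omega))⟩
  have thin : ∀ S : Set G, S.Nonempty → (0 : G) ∉ S → (∀ x ∈ S, -x ∈ S) → Thin S →
      ∀ r, 2 ≤ r → Realised S r := by
    intro S h1 h2 h3 h4 r hr
    obtain ⟨n, rfl⟩ : ∃ n, r = n + 2 := ⟨r - 2, by omega⟩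
    exact greedy h4 h3 h2 h1 n
  refine ⟨fun r s => ⟨?_, ?_⟩, fun S => ⟨?_, ?_⟩, fun r => ⟨fun h => ?_, ?_⟩, p4, ?_⟩
  · rintro ⟨S, h, rfl⟩
    have h1 := real_pos h
    by_cases hr : r = 1
    · subst hr
      right
      rw [(real_one S).1 h]
      exact ⟨rfl, compl_zero_infinite.encard_eq⟩
    · left
      exact ⟨by omega, Set.encard_ne_zero.2 (real_props h (by omega)).1⟩
  · rintro (⟨hr, hs⟩ | ⟨rfl, rfl⟩)
    · induction s using ENat.recTopCoe with
      | top =>
        have hinf : {x : G | ∃ k : ℕ, |x.1| = 2 ^ k}.Infinite := by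
          refine Set.infinite_of_injective_forall_mem (f := fun k : ℕ => (((2 : ℤ) ^ k, 0) : G)) ?_ ?_
          · intro a b hab
            have := congrArg Prod.fst hab
            exact pow_right_injective₀ (by norm_num) (by norm_num) this
          · intro k; exact ⟨k, abs_of_pos (by positivity)⟩
        refine ⟨_, thin _ hinf.nonempty ?_ ?_ thin_pow r hr, hinf.encard_eq⟩
        · rintro ⟨k, hk⟩
          have : (0 : ℤ) < 2 ^ k := by positivity
          simp at hk; linarith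
        · rintro x ⟨k, hk⟩; exact ⟨k, by simpa using hk⟩
      | coe n =>
        obtain ⟨S, h1, h2, h3⟩ := exists_sym n
        refine ⟨S, thin _ ?_ (by simpa using h2) (by simpa using h3)
          (thin_of_density (density_of_finite S.finite_toSet)) r hr, by simp [h1]⟩
        rw [Finset.coe_nonempty, ← Finset.card_pos, h1]
        rcases n with _ | n
        · simp at hs
        · omega
    · exact ⟨_, (real_one _).2 rfl, compl_zero_infinite.encard_eq⟩
  · rintro ⟨r, h⟩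
    by_cases hS : S = {0}ᶜ
    · exact Or.inl hS
    · exact Or.inr (real_props h (p4 S r hS h).1)
  · rintro (rfl | h)
    exacts [⟨1, (real_one _).2 rfl⟩, ⟨2, real_two h⟩]
  · have h1 := real_pos h
    by_contra hr
    exact ne_of_props (real_props h (by omega)).2.2.2 rfl
  · rintro rfl; exact (real_one _).2 rfl
  · intro S h1 h2 h3 h4 r
    have ht : Thin S := thin_of_density (h4.elim density_of_finite id)
    refine ⟨fun h => (p4 S r ?_ h).1, thin S h1 h2 h3 ht r⟩
    exact ne_of_props (real_props (thin S h1 h2 h3 ht 2 le_rfl) le_rfl).2.2.2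

end Pool.Agent.Results.MP_a61939_al.Phase
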